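import Pool.Agent.H45.KC.KFin4

/-!
# FD, module KMain: the theorems of `H45.KC.KMain` from the symmetry of the residues

`PalK K p`: for every solution, the family of the residues `-b / a` at the places above `p` which divide
none of `a, b, c` is stable under inversion (`pal_of_inv` in `FD.Link`).
-/

open Polynomial NumberField IsDedekindDomain H9FC

namespace Pool.Agent.H73.FD

open H45KC

/-- the hypothesis on `K` and `p` -/
def PalK (K : Type*) [Field K] [NumberField K] (p : ℕ) [Fact p.Prime] : Prop :=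
  2 * Module.finrank ℚ K + 3 ≤ p ∧
  ∀ a b c : 𝓞 K, FSol K p a b c → CopAt K p a b c →
    ∀ ψ : Fin (Module.finrank ℚ K) → (𝓞 K →+* AlgebraicClosure (ZMod p)), IsRedFam ψ →
      ∀ x y : AlgebraicClosure (ZMod p),
        ∏ i ∈ ZZ ψ a b c, (x * ψ i b + y * ψ i a) = ∏ i ∈ ZZ ψ a b c, (x * ψ i a + y * ψ i b)

theorem PalK.bound {K : Type*} [Field K] [NumberField K] {p : ℕ} [Fact p.Prime] (h : PalK K p) :
    2 * Module.finrank ℚ K + 3 ≤ p := h.1

section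
variable {K : Type*} [Field K] [NumberField K] {p : ℕ} [Fact p.Prime]

theorem pal_ab (hC : PalK K p) {a b c : 𝓞 K} (h : FSol K p a b c)
    (hcp : CopAt K p a b c)
    {ψ : Fin (Module.finrank ℚ K) → (𝓞 K →+* AlgebraicClosure (ZMod p))} (hψ : IsRedFam ψ)
    (x y : AlgebraicClosure (ZMod p)) :
    ∏ i ∈ ZZ ψ a b c, (x * ψ i b + y * ψ i a) = ∏ i ∈ ZZ ψ a b c, (x * ψ i a + y * ψ i b) :=
  hC.2 a b c h hcp ψ hψ x y

theorem pal_bc (hC : PalK K p) {a b c : 𝓞 K} (h : FSol K p a b c)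
    (hcp : CopAt K p a b c)
    {ψ : Fin (Module.finrank ℚ K) → (𝓞 K →+* AlgebraicClosure (ZMod p))} (hψ : IsRedFam ψ)
    (x y : AlgebraicClosure (ZMod p)) :
    ∏ i ∈ ZZ ψ a b c, (x * ψ i c + y * ψ i b) = ∏ i ∈ ZZ ψ a b c, (x * ψ i b + y * ψ i c) := by
  have := pal_ab hC h.rot hcp.rot hψ x y
  rwa [ZZ_rot] at this

/-- the residues at the places not dividing `a b c` -/
theorem sym_data (hC : PalK K p) {a b c : 𝓞 K} (h : FSol K p a b c)
    (hcp : CopAt K p a b c)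
    {ψ : Fin (Module.finrank ℚ K) → (𝓞 K →+* AlgebraicClosure (ZMod p))} (hψ : IsRedFam ψ) :
    (∀ i : {i // i ∈ ZZ ψ a b c}, ψ i a ≠ 0) ∧ (∀ i : {i // i ∈ ZZ ψ a b c}, ψ i b ≠ 0) ∧
    (∀ i : {i // i ∈ ZZ ψ a b c}, ψ i c ≠ 0) ∧
    (∀ i : {i // i ∈ ZZ ψ a b c}, ψ i a + ψ i b + ψ i c = 0) ∧
    (∀ x y : AlgebraicClosure (ZMod p), ∏ i : {i // i ∈ ZZ ψ a b c}, (x * ψ i b + y * ψ i a)
      = ∏ i : {i // i ∈ ZZ ψ a b c}, (x * ψ i a + y * ψ i b)) ∧
    (∀ x y : AlgebraicClosure (ZMod p), ∏ i : {i // i ∈ ZZ ψ a b c}, (x * ψ i c + y * ψ i b)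
      = ∏ i : {i // i ∈ ZZ ψ a b c}, (x * ψ i b + y * ψ i c)) := by
  refine ⟨fun i => ((mem_ZZ ψ a b c i).mp i.2).1, fun i => ((mem_ZZ ψ a b c i).mp i.2).2.1,
    fun i => ((mem_ZZ ψ a b c i).mp i.2).2.2, fun i => fsol_hom h (ψ i), fun x y => ?_,
    fun x y => ?_⟩
  · rw [Finset.prod_coe_sort (ZZ ψ a b c) (fun i => x * ψ i b + y * ψ i a),
      Finset.prod_coe_sort (ZZ ψ a b c) (fun i => x * ψ i a + y * ψ i b)]
    exact pal_ab hC h hcp hψ x y
  · rw [Finset.prod_coe_sort (ZZ ψ a b c) (fun i => x * ψ i c + y * ψ i b),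
      Finset.prod_coe_sort (ZZ ψ a b c) (fun i => x * ψ i b + y * ψ i c)]
    exact pal_bc hC h hcp hψ x y

theorem five_le (hC : PalK K p) : 5 ≤ p := by
  have := hC.bound
  have hd0 : 0 < Module.finrank ℚ K := Module.finrank_pos
  omega

/-- (1) parity -/
theorem main_even (hC : PalK K p) (hW : ¬ p ^ 2 ∣ 2 ^ (p - 1) - 1)
    {a b c : 𝓞 K} (h : FSol K p a b c) (hcp : CopAt K p a b c) :
    ∃ s : ℕ, Even s ∧ s + mm K p a + mm K p b + mm K p c = Module.finrank ℚ K := by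
  obtain ⟨ψ, hψ⟩ := exists_redFam K p (AlgebraicClosure (ZMod p))
  obtain ⟨e1, e2, e3, e4, e5, e6⟩ := sym_data hC h hcp hψ
  have h5 := five_le hC
  have hb := hC.bound
  refine ⟨(ZZ ψ a b c).card, ?_, card_ZZ K p a b c h hcp hψ⟩
  have := sym_even (fun i : {i // i ∈ ZZ ψ a b c} => ψ i a)
    (fun i : {i // i ∈ ZZ ψ a b c} => ψ i b) (fun i : {i // i ∈ ZZ ψ a b c} => ψ i c)
    (char_ne h5).1 e1 e2 e3 e4 e5 e6
    (fun i => cm_one (by omega) (by omega) h hW (ψ i) (e1 i))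
  rwa [Fintype.card_coe] at this

/-- (2) three primes -/
theorem main_three (hC : PalK K p)
    {a b c : 𝓞 K} (h : FSol K p a b c) (hcp : CopAt K p a b c) (s : ℕ) (hs : Odd s)
    (hsum : s + mm K p a + mm K p b + mm K p c = Module.finrank ℚ K) :
    ∃ P₁ P₂ P₃ : Ideal (𝓞 K), P₁ ≠ P₂ ∧ P₂ ≠ P₃ ∧ P₃ ≠ P₁ ∧
      ∀ P : Ideal (𝓞 K), P = P₁ ∨ P = P₂ ∨ P = P₃ →
        P.IsPrime ∧ (p : 𝓞 K) ∈ P ∧ a ∉ P ∧ b ∉ P ∧ c ∉ P := by
  obtain ⟨ψ, hψ⟩ := exists_redFam K p (AlgebraicClosure (ZMod p))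
  obtain ⟨e1, e2, e3, e4, e5, e6⟩ := sym_data hC h hcp hψ
  have h5 := five_le hC
  have hcard : Odd (Fintype.card {i // i ∈ ZZ ψ a b c}) := by
    rw [Fintype.card_coe]
    have := card_ZZ K p a b c h hcp hψ
    have h1 : (ZZ ψ a b c).card = s := by omega
    rwa [h1]
  obtain ⟨⟨i, hi⟩, ⟨j, hj⟩, ⟨k, hk⟩⟩ := sym_three (fun i : {i // i ∈ ZZ ψ a b c} => ψ i a)
    (fun i : {i // i ∈ ZZ ψ a b c} => ψ i b) (fun i : {i // i ∈ ZZ ψ a b c} => ψ i c)
    (char_ne h5).1 e1 e2 e3 e4 e5 e6 hcard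
  have key : ∀ i : {i // i ∈ ZZ ψ a b c}, (RingHom.ker (ψ i)).IsPrime ∧
      (p : 𝓞 K) ∈ RingHom.ker (ψ i) ∧ a ∉ RingHom.ker (ψ i) ∧ b ∉ RingHom.ker (ψ i) ∧
      c ∉ RingHom.ker (ψ i) := by
    intro i
    refine ⟨RingHom.ker_isPrime _, ?_, ?_, ?_, ?_⟩
    · rw [RingHom.mem_ker, map_natCast, CharP.cast_eq_zero]
    · exact fun h0 => e1 i h0
    · exact fun h0 => e2 i h0
    · exact fun h0 => e3 i h0
  have aux : ∀ (m : {i // i ∈ ZZ ψ a b c}), ψ m a = ψ m b → ψ m b = ψ m c → False := by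
    intro m h1 h2
    have h3 := e4 m
    rw [← h2, h1] at h3
    have h4 : (3 : AlgebraicClosure (ZMod p)) * ψ m b = 0 := by linear_combination h3
    rcases mul_eq_zero.mp h4 with h6 | h6
    · exact (char_ne (p := p) h5).2 h6
    · exact e2 m h6
  have mem : ∀ (m : {i // i ∈ ZZ ψ a b c}) (x y : 𝓞 K), ψ m x = ψ m y ↔
      x - y ∈ RingHom.ker (ψ m) := by
    intro m x y
    rw [RingHom.mem_ker, map_sub, sub_eq_zero]
  refine ⟨RingHom.ker (ψ i), RingHom.ker (ψ j), RingHom.ker (ψ k), ?_, ?_, ?_, ?_⟩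
  · intro h0
    have h1 : ψ j a = ψ j b := by
      rw [mem, ← h0, ← mem]
      exact hi
    exact aux j h1 hj
  · intro h0
    have h1 : ψ k b = ψ k c := by
      rw [mem, ← h0, ← mem]
      exact hj
    exact aux k (by rw [← hk]; exact h1.symm ▸ rfl) h1
  · intro h0
    have h1 : ψ i c = ψ i a := by
      rw [mem, ← h0, ← mem]
      exact hk
    exact aux i hi (by rw [h1]; exact hi.symm)
  · rintro P (rfl | rfl | rfl)
    · exact key i
    · exact key j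
    · exact key k

/-- (3) the relation between the places above `q` and above `p`, `q ∈ {2, 3}` -/
theorem main_rel (hC : PalK K p) (q : ℕ) [Fact q.Prime]
    (hWq : ¬ p ^ 2 ∣ q ^ (p - 1) - 1)
    (hq : (q = 2 ∧ ∀ P : Ideal (𝓞 K), P.IsPrime → (q : 𝓞 K) ∈ P → Nat.card (𝓞 K ⧸ P) ≤ 4) ∨
      (q = 3 ∧ ∀ P : Ideal (𝓞 K), P.IsPrime → (q : 𝓞 K) ∈ P → Nat.card (𝓞 K ⧸ P) ≤ 3))
    {a b c : 𝓞 K} (h : FSol K p a b c) (hcp : CopAt K p a b c) (hcq : CopAt K q a b c) :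
    (mm K p a : ℤ) - mm K p b = (mm K q a : ℤ) - mm K q b := by
  obtain ⟨ψ, hψ⟩ := exists_redFam K p (AlgebraicClosure (ZMod p))
  obtain ⟨φ, hφ⟩ := exists_redFam K q (AlgebraicClosure (ZMod q))
  have h5 := five_le hC
  have hb := hC.bound
  have h1 := wief_cond K p h5 (by omega) q hWq hq a b c h hcp hcq hψ
  have ha : mm K q a ≤ Module.finrank ℚ K := by
    rw [← card_zero_eq_mm q hφ a]
    refine (Nat.card_le_card_of_injective _ Subtype.val_injective).trans ?_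
    simp
  have hb' : mm K q b ≤ Module.finrank ℚ K := by
    rw [← card_zero_eq_mm q hφ b]
    refine (Nat.card_le_card_of_injective _ Subtype.val_injective).trans ?_
    simp
  apply rel_mm K p a b c (by omega) h hcp hψ (fun x y => pal_ab hC h hcp hψ x y) _ _
  · rw [h1]
    push_cast
    rfl
  · rw [abs_le]
    constructor <;> omega

/-- (4) Furtwängler -/
theorem main_furt (hC : PalK K p) (q : ℕ) [Fact q.Prime] (hqp : q ≠ p)
    (hWq : ¬ p ^ 2 ∣ q ^ (p - 1) - 1)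
    {a b c : 𝓞 K} (h : FSol K p a b c) (hcp : CopAt K p a b c) (hcq : CopAt K q a b c)
    (hb : ∀ P : Ideal (𝓞 K), P.IsPrime → (q : 𝓞 K) ∈ P → b ∈ P)
    (P : Ideal (𝓞 K)) (hP : P.IsPrime) (hpP : (p : 𝓞 K) ∈ P) : b ∈ P := by
  obtain ⟨ψ, hψ⟩ := exists_redFam K p (AlgebraicClosure (ZMod p))
  have h5 := five_le hC
  have hbd := hC.bound
  have h1 := furt_cond K p (by omega) (by omega) q hqp hWq a b c h hcp hcq hb hψ
  have h2 : (mm K p a : ℤ) - mm K p b = - (Module.finrank ℚ K : ℤ) := by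
    apply rel_mm K p a b c (by omega) h hcp hψ (fun x y => pal_ab hC h hcp hψ x y) _ _
    · rw [h1]
      push_cast
      rfl
    · rw [abs_neg, Nat.abs_cast]
  have h3 : mm K p b = Nat.card {i // ψ i b = 0} := (card_zero_eq_mm p hψ b).symm
  have h4 : Nat.card {i // ψ i b = 0} = Nat.card (Fin (Module.finrank ℚ K)) := by
    have h6 : Nat.card {i // ψ i b = 0} ≤ Nat.card (Fin (Module.finrank ℚ K)) :=
      Nat.card_le_card_of_injective _ Subtype.val_injective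
    have h7 : Nat.card (Fin (Module.finrank ℚ K)) = Module.finrank ℚ K := by simp
    omega
  have h6 : ∀ i, ψ i b = 0 := by
    intro i
    have h7 : Function.Bijective (Subtype.val : {i // ψ i b = 0} → Fin (Module.finrank ℚ K)) :=
      (Nat.bijective_iff_injective_and_card _).mpr ⟨Subtype.val_injective, h4⟩
    obtain ⟨j, hj⟩ := h7.2 i
    rw [← hj]
    exact j.2
  obtain ⟨i, hi⟩ := exists_redFam_ker hψ p P hP hpP
  rw [← hi, RingHom.mem_ker]
  exact h6 i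

/-- (5) degree at most five, first case -/
theorem main_five (hC : PalK K p) (hW : ¬ p ^ 2 ∣ 2 ^ (p - 1) - 1)
    {a b c : 𝓞 K} (h : FSol K p a b c) (hcp : CopAt K p a b c) (h5d : Module.finrank ℚ K ≤ 5)
    (P : Ideal (𝓞 K)) (hP : P.IsPrime) (hpP : (p : 𝓞 K) ∈ P)
    (ha : a ∉ P) (hb : b ∉ P) (hc : c ∉ P) : a ^ 2 + a * b + b ^ 2 ∈ P := by
  obtain ⟨ψ, hψ⟩ := exists_redFam K p (AlgebraicClosure (ZMod p))
  obtain ⟨e1, e2, e3, e4, e5, e6⟩ := sym_data hC h hcp hψ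
  have h5 := five_le hC
  have hbd := hC.bound
  obtain ⟨i, hi⟩ := exists_redFam_ker hψ p P hP hpP
  subst hi
  have hiZ : i ∈ ZZ ψ a b c := by
    rw [mem_ZZ]
    exact ⟨fun h0 => ha (RingHom.mem_ker.mpr h0), fun h0 => hb (RingHom.mem_ker.mpr h0),
      fun h0 => hc (RingHom.mem_ker.mpr h0)⟩
  have := sym_five (fun i : {i // i ∈ ZZ ψ a b c} => ψ i a)
    (fun i : {i // i ∈ ZZ ψ a b c} => ψ i b) (fun i : {i // i ∈ ZZ ψ a b c} => ψ i c)
    (char_ne h5).1 (char_ne h5).2 e1 e2 e3 e4 e5 e6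
    (fun i => cm_one (by omega) (by omega) h hW (ψ i) (e1 i))
    (fun i => cm_one (by omega) (by omega) h.rot hW (ψ i) (e2 i))
    (fun i => cm_one (by omega) (by omega) h.rot.rot hW (ψ i) (e3 i))
    (by
      rw [Fintype.card_coe]
      have := card_ZZ K p a b c h hcp hψ
      omega) ⟨i, hiZ⟩
  rw [RingHom.mem_ker]
  simpa using this

end

end Pool.Agent.H73.FD
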