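import Pool.Agent.H73.FD.Quad
import Pool.Agent.H73.QX.HF3
import Pool.Agent.H45.FD.Link
import Pool.Agent.H59.FD.Final
import Pool.Agent.H2.HF.LowC

/-!
# FD Half: quadratic fields, one half of all primes
-/

set_option autoImplicit false

open NumberField IsDedekindDomain

namespace Pool.Agent.H73.FD

open Finset Filter
open Pool.Agent.H71.FD (cn Null)

/-- the exceptional primes of the quadratic case -/
def B2 (p : ℕ) : Prop := Pool.Agent.FD.FDBad 2 p ∨ p ≤ 6

theorem null_B2 : Null B2 :=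
  (H59FD.theorem_M 2).or (Pool.Agent.H71.FD.Null_of_bounded 6 fun _ _ h => h)

theorem palK_two (K : Type*) [Field K] [NumberField K] (hK : Module.finrank ℚ K = 2) (p : ℕ)
    [Fact p.Prime] (hB : ¬ B2 p) : PalK K p := by
  have h1 : ¬ Pool.Agent.FD.FDBad 2 p ∧ 7 ≤ p := by
    unfold B2 at hB
    push Not at hB
    exact ⟨hB.1, hB.2⟩
  exact H45FD.palK_of_not_bad K p (by rw [hK]; exact h1.2) (by rw [hK]; exact h1.1)

/-- the strong form of the first case for all `p ∉ B2` with `(-3 d / p) ≠ 1` -/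
theorem first_two (K : Type*) [Field K] [NumberField K] (hK : Module.finrank ℚ K = 2) (p : ℕ)
    (hp : p.Prime) (hB : ¬ B2 p) (d : ℤ) (hd : Squarefree d) (hd1 : d ≠ 1) (δ : K)
    (hδ : δ ^ 2 = (d : K)) (hj : jacobiSym (-3 * d) p ≠ 1) : Pool.Agent.H73.QX.FirstCase K p := by
  have : Fact p.Prime := ⟨hp⟩
  exact quad_strong (palK_two K hK p hB) hK d hd hd1 δ hδ hj

/-- one half of all primes -/
theorem half (K : Type*) [Field K] [NumberField K] (hK : Module.finrank ℚ K = 2) (d : ℤ)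
    (hd : Squarefree d) (hd1 : d ≠ 1) (hd3 : d ≠ -3) (δ : K) (hδ : δ ^ 2 = (d : K)) (ε : ℝ)
    (hε : 0 < ε) : ∀ᶠ x : ℕ in atTop,
      (1 / 2 - ε) * ((x : ℝ) / Real.log x) ≤ cn (Pool.Agent.H73.QX.FirstCase K) x := by
  have hd0 : (-3 * d : ℤ) ≠ 0 := mul_ne_zero (by norm_num) hd.ne_zero
  filter_upwards [Pool.Agent.H71.FD.class_sdiff (-3 * d) hd0
    (Pool.Agent.H73.QX.not_square d hd hd3) (-1) (Or.inr rfl) B2 null_B2 ε hε] with x hx
  refine hx.trans (Nat.cast_le.2 (Pool.Agent.H71.FD.cn_mono (fun p hp hg => ?_) x))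
  exact first_two K hK p hp hg.2 d hd hd1 δ hδ (by rw [hg.1]; norm_num)

end Pool.Agent.H73.FD
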