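import Pool.Agent.H73.FD.KMain

/-!
# KC, module KFin: the theorems for solutions in `K`
-/

open Polynomial NumberField IsDedekindDomain H9FC

namespace Pool.Agent.H73.FD

open H45KC

section
variable {K : Type*} [Field K] [NumberField K] {p : ℕ} [Fact p.Prime]

/-- (1), (2) -/
theorem fin_parity (hC : PalK K p) (a b c : K) (ha : a ≠ 0) (hb : b ≠ 0)
    (hc : c ≠ 0) (h : a ^ p + b ^ p + c ^ p = 0) :
    ∃ s : ℕ, s + nu K p a b c + nu K p b c a + nu K p c a b = Module.finrank ℚ K ∧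
      (Odd s → p ^ 2 ∣ 2 ^ (p - 1) - 1 ∧
        ∃ v₁ v₂ v₃ : HeightOneSpectrum (𝓞 K), v₁ ≠ v₂ ∧ v₂ ≠ v₃ ∧ v₃ ≠ v₁ ∧
          ∀ v : HeightOneSpectrum (𝓞 K), v = v₁ ∨ v = v₂ ∨ v = v₃ →
            (p : 𝓞 K) ∈ v.asIdeal ∧ v.valuation K a = v.valuation K b ∧
            v.valuation K b = v.valuation K c) := by
  obtain ⟨l, a', b', c', hl, ea, eb, ec, hF, hcp, -⟩ := exists_norm K p p a b c ha hb hc h
  have na := nu_eq_mm hl ea eb ec hcp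
  have nb := nu_eq_mm hl eb ec ea hcp.rot
  have nc := nu_eq_mm hl ec ea eb hcp.rot.rot
  have h5 := five_le hC
  obtain ⟨ψ, hψ⟩ := exists_redFam K p (AlgebraicClosure (ZMod p))
  have hcard := card_ZZ K p a' b' c' hF hcp hψ
  refine ⟨(ZZ ψ a' b' c').card, ?_, ?_⟩
  · rw [na, nb, nc]
    exact hcard
  · intro hodd
    constructor
    · by_contra hW
      obtain ⟨s, hs, hs2⟩ := main_even hC hW hF hcp
      have : s = (ZZ ψ a' b' c').card := by omega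
      rw [this] at hs
      exact (Nat.not_even_iff_odd.mpr hodd) hs
    · obtain ⟨P₁, P₂, P₃, h12, h23, h31, hP⟩ := main_three hC hF hcp _ hodd hcard
      have hne : ∀ P : Ideal (𝓞 K), P = P₁ ∨ P = P₂ ∨ P = P₃ → P ≠ ⊥ := by
        intro P hPP h0
        obtain ⟨-, h1, -⟩ := hP P hPP
        rw [h0, Ideal.mem_bot, Nat.cast_eq_zero] at h1
        omega
      have key : ∀ (P : Ideal (𝓞 K)) (hPP : P = P₁ ∨ P = P₂ ∨ P = P₃),
          (p : 𝓞 K) ∈ P ∧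
          (⟨P, (hP P hPP).1, hne P hPP⟩ : HeightOneSpectrum (𝓞 K)).valuation K a
            = (⟨P, (hP P hPP).1, hne P hPP⟩ : HeightOneSpectrum (𝓞 K)).valuation K b ∧
          (⟨P, (hP P hPP).1, hne P hPP⟩ : HeightOneSpectrum (𝓞 K)).valuation K b
            = (⟨P, (hP P hPP).1, hne P hPP⟩ : HeightOneSpectrum (𝓞 K)).valuation K c := by
        intro P hPP
        obtain ⟨h0, h1, h2, h3, h4⟩ := hP P hPP
        refine ⟨h1, ?_⟩
        rw [← not_dv_iff ha hb hc h]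
        refine ⟨?_, ?_, ?_⟩
        · rw [dv_iff hl ea eb ec hcp _ h1]
          exact h2
        · rw [dv_iff hl eb ec ea hcp.rot _ h1]
          exact h3
        · rw [dv_iff hl ec ea eb hcp.rot.rot _ h1]
          exact h4
      refine ⟨⟨P₁, (hP P₁ (Or.inl rfl)).1, hne P₁ (Or.inl rfl)⟩,
        ⟨P₂, (hP P₂ (Or.inr (Or.inl rfl))).1, hne P₂ (Or.inr (Or.inl rfl))⟩,
        ⟨P₃, (hP P₃ (Or.inr (Or.inr rfl))).1, hne P₃ (Or.inr (Or.inr rfl))⟩, ?_, ?_, ?_, ?_⟩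
      · intro h0
        exact h12 (congrArg HeightOneSpectrum.asIdeal h0)
      · intro h0
        exact h23 (congrArg HeightOneSpectrum.asIdeal h0)
      · intro h0
        exact h31 (congrArg HeightOneSpectrum.asIdeal h0)
      · rintro v (rfl | rfl | rfl)
        · exact key P₁ (Or.inl rfl)
        · exact key P₂ (Or.inr (Or.inl rfl))
        · exact key P₃ (Or.inr (Or.inr rfl))

/-- (3) the relation, `q ∈ {2, 3}` -/
theorem fin_rel (hC : PalK K p) (q : ℕ) [Fact q.Prime]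
    (hWq : ¬ p ^ 2 ∣ q ^ (p - 1) - 1)
    (hq : (q = 2 ∧ ∀ v : HeightOneSpectrum (𝓞 K), (q : 𝓞 K) ∈ v.asIdeal →
        Nat.card (𝓞 K ⧸ v.asIdeal) ≤ 4) ∨
      (q = 3 ∧ ∀ v : HeightOneSpectrum (𝓞 K), (q : 𝓞 K) ∈ v.asIdeal →
        Nat.card (𝓞 K ⧸ v.asIdeal) ≤ 3))
    (a b c : K) (ha : a ≠ 0) (hb : b ≠ 0)
    (hc : c ≠ 0) (h : a ^ p + b ^ p + c ^ p = 0) :
    (nu K p a b c : ℤ) - nu K p b c a = (nu K q a b c : ℤ) - nu K q b c a := by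
  obtain ⟨l, a', b', c', hl, ea, eb, ec, hF, hcp, hcq⟩ := exists_norm K p q a b c ha hb hc h
  rw [nu_eq_mm hl ea eb ec hcp, nu_eq_mm hl eb ec ea hcp.rot, nu_eq_mm hl ea eb ec hcq,
    nu_eq_mm hl eb ec ea hcq.rot]
  have hq0 : (q : 𝓞 K) ≠ 0 := Nat.cast_ne_zero.mpr (Fact.out : q.Prime).ne_zero
  have hne : ∀ P : Ideal (𝓞 K), (q : 𝓞 K) ∈ P → P ≠ ⊥ := by
    rintro P hP rfl
    exact hq0 (Ideal.mem_bot.mp hP)
  apply main_rel hC q hWq _ hF hcp hcq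
  rcases hq with ⟨h1, h2⟩ | ⟨h1, h2⟩
  · exact Or.inl ⟨h1, fun P hP hqP => h2 ⟨P, hP, hne P hqP⟩ hqP⟩
  · exact Or.inr ⟨h1, fun P hP hqP => h2 ⟨P, hP, hne P hqP⟩ hqP⟩

/-- (4) Furtwängler -/
theorem fin_furt (hC : PalK K p) (q : ℕ) [Fact q.Prime] (hqp : q ≠ p)
    (hWq : ¬ p ^ 2 ∣ q ^ (p - 1) - 1)
    (a b c : K) (ha : a ≠ 0) (hb : b ≠ 0) (hc : c ≠ 0) (h : a ^ p + b ^ p + c ^ p = 0)
    (hd : ∀ v : HeightOneSpectrum (𝓞 K), (q : 𝓞 K) ∈ v.asIdeal → Dv v a b c)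
    (v : HeightOneSpectrum (𝓞 K)) (hv : (p : 𝓞 K) ∈ v.asIdeal) : Dv v a b c := by
  obtain ⟨l, a', b', c', hl, ea, eb, ec, hF, hcp, hcq⟩ := exists_norm K p q a b c ha hb hc h
  rw [dv_iff hl ea eb ec hcp v hv]
  have hq0 : (q : 𝓞 K) ≠ 0 := Nat.cast_ne_zero.mpr (Fact.out : q.Prime).ne_zero
  refine main_furt hC q hqp hWq hF.rot.rot hcp.rot.rot hcq.rot.rot ?_ v.asIdeal v.isPrime hv
  intro P hP hqP
  have hne : P ≠ ⊥ := by
    rintro rfl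
    exact hq0 (Ideal.mem_bot.mp hqP)
  exact (dv_iff hl ea eb ec hcq ⟨P, hP, hne⟩ hqP).mp (hd ⟨P, hP, hne⟩ hqP)

/-- (5) degree at most five -/
theorem fin_five (hC : PalK K p) (hW : ¬ p ^ 2 ∣ 2 ^ (p - 1) - 1)
    (a b c : K) (ha : a ≠ 0) (hb : b ≠ 0) (hc : c ≠ 0) (h : a ^ p + b ^ p + c ^ p = 0)
    (h5d : Module.finrank ℚ K ≤ 5)
    (v : HeightOneSpectrum (𝓞 K)) (hv : (p : 𝓞 K) ∈ v.asIdeal)
    (h1 : v.valuation K a = v.valuation K b) (h2 : v.valuation K b = v.valuation K c) :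
    v.valuation K (a ^ 2 + a * b + b ^ 2) < v.valuation K (a ^ 2) := by
  obtain ⟨l, a', b', c', hl, ea, eb, ec, hF, hcp, -⟩ := exists_norm K p p a b c ha hb hc h
  obtain ⟨n1, n2, n3⟩ := (not_dv_iff ha hb hc h v).mpr ⟨h1, h2⟩
  rw [dv_iff hl ea eb ec hcp v hv] at n1
  rw [dv_iff hl eb ec ea hcp.rot v hv] at n2
  rw [dv_iff hl ec ea eb hcp.rot.rot v hv] at n3
  have h3 := main_five hC hW hF hcp h5d v.asIdeal v.isPrime hv n1 n2 n3
  have h4 : v.valuation K ((a' ^ 2 + a' * b' + b' ^ 2 : 𝓞 K) : K) < 1 := by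
    rw [HeightOneSpectrum.valuation_lt_one_iff_mem]
    exact h3
  have h5 : v.valuation K ((a' : 𝓞 K) : K) = 1 := by
    refine le_antisymm (v.valuation_le_one a') ?_
    by_contra h6
    exact n1 ((HeightOneSpectrum.valuation_lt_one_iff_mem (K := K) v a').mp (not_le.mp h6))
  have h6 : ((a' ^ 2 + a' * b' + b' ^ 2 : 𝓞 K) : K) = l ^ 2 * (a ^ 2 + a * b + b ^ 2) := by
    have h8 : ((a' ^ 2 + a' * b' + b' ^ 2 : 𝓞 K) : K)
        = (a' : K) ^ 2 + (a' : K) * (b' : K) + (b' : K) ^ 2 := by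
      simp only [map_add, map_mul, map_pow]
    rw [h8, ea, eb]
    ring
  have hvl : v.valuation K (l ^ 2) ≠ 0 := by
    rw [Valuation.ne_zero_iff]
    exact pow_ne_zero 2 hl
  have h7 : v.valuation K (l ^ 2) * v.valuation K (a ^ 2) = 1 := by
    rw [← map_mul, ← mul_pow, ← ea, map_pow, h5, one_pow]
  rw [h6, map_mul, ← h7] at h4
  exact lt_of_mul_lt_mul_left' h4

/-- the six norm forms in the first case, integral version -/
theorem main_forms (hC : PalK K p) {a b c : 𝓞 K} (h : FSol K p a b c)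
    (hcp : CopAt K p a b c)
    (h1 : ∀ P : Ideal (𝓞 K), P.IsPrime → (p : 𝓞 K) ∈ P → a ∉ P ∧ b ∉ P ∧ c ∉ P) (x y : ℤ)
    (u w : 𝓞 K) (huw : (u = a ∧ w = b) ∨ (u = b ∧ w = a) ∨ (u = b ∧ w = c) ∨ (u = c ∧ w = b) ∨
      (u = c ∧ w = a) ∨ (u = a ∧ w = c)) :
    (p : ℤ) ∣ Algebra.norm ℤ ((x : 𝓞 K) * u + (y : 𝓞 K) * w)
      - Algebra.norm ℤ ((x : 𝓞 K) * a + (y : 𝓞 K) * b) := by
  obtain ⟨ψ, hψ⟩ := exists_redFam K p (AlgebraicClosure (ZMod p))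
  have hker : ∀ i, (RingHom.ker (ψ i)).IsPrime ∧ (p : 𝓞 K) ∈ RingHom.ker (ψ i) := fun i =>
    ⟨RingHom.ker_isPrime _, by rw [RingHom.mem_ker, map_natCast, CharP.cast_eq_zero]⟩
  have hZ : ZZ ψ a b c = Finset.univ := by
    ext i
    rw [mem_ZZ]
    obtain ⟨h2, h3, h4⟩ := h1 _ (hker i).1 (hker i).2
    simp only [Finset.mem_univ, iff_true]
    exact ⟨fun h0 => h2 (RingHom.mem_ker.mpr h0), fun h0 => h3 (RingHom.mem_ker.mpr h0),
      fun h0 => h4 (RingHom.mem_ker.mpr h0)⟩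
  have e1 : ∀ x y : AlgebraicClosure (ZMod p),
      ∏ i, (x * ψ i b + y * ψ i a) = ∏ i, (x * ψ i a + y * ψ i b) := by
    intro x y
    have := pal_ab hC h hcp hψ x y
    rwa [hZ] at this
  have e2 : ∀ x y : AlgebraicClosure (ZMod p),
      ∏ i, (x * ψ i c + y * ψ i b) = ∏ i, (x * ψ i b + y * ψ i c) := by
    intro x y
    have := pal_bc hC h hcp hψ x y
    rwa [hZ] at this
  obtain ⟨f1, f2, f3, f4⟩ := forms_eq (fun i => ψ i a) (fun i => ψ i b) (fun i => ψ i c)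
    (fun i => fsol_hom h (ψ i)) e1 e2 (x : AlgebraicClosure (ZMod p)) (y : _)
  have e1' := e1 (x : AlgebraicClosure (ZMod p)) (y : _)
  have hn : ∀ u w : 𝓞 K, ((Algebra.norm ℤ ((x : 𝓞 K) * u + (y : 𝓞 K) * w) : ℤ) :
      AlgebraicClosure (ZMod p)) = ∏ i, ((x : AlgebraicClosure (ZMod p)) * ψ i u + y * ψ i w) := by
    intro u w
    rw [redFam_norm hψ]
    simp
  rw [← CharP.intCast_eq_zero_iff (AlgebraicClosure (ZMod p)) p, Int.cast_sub, hn, hn, sub_eq_zero]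
  rcases huw with ⟨rfl, rfl⟩ | ⟨rfl, rfl⟩ | ⟨rfl, rfl⟩ | ⟨rfl, rfl⟩ | ⟨rfl, rfl⟩ | ⟨rfl, rfl⟩
  · rfl
  · exact e1'
  · exact f1
  · exact f2
  · exact f3
  · exact f4

end

end Pool.Agent.H73.FD
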