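import Pool.Agent.H73.FD.KFin2

/-!
# KC, module KFin3: further consequences of the `S₃`-symmetry
-/

open Polynomial NumberField IsDedekindDomain H9FC

namespace Pool.Agent.H73.FD

open H45KC

section
variable {K : Type*} [Field K] [NumberField K] {p : ℕ} [Fact p.Prime]

/-- (5) at most five places: refined version -/
theorem main_five' (hC : PalK K p) (hW : ¬ p ^ 2 ∣ 2 ^ (p - 1) - 1)
    {a b c : 𝓞 K} (h : FSol K p a b c) (hcp : CopAt K p a b c) (s : ℕ) (hs : s ≤ 5)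
    (hsum : s + mm K p a + mm K p b + mm K p c = Module.finrank ℚ K)
    (P : Ideal (𝓞 K)) (hP : P.IsPrime) (hpP : (p : 𝓞 K) ∈ P)
    (ha : a ∉ P) (hb : b ∉ P) (hc : c ∉ P) : a ^ 2 + a * b + b ^ 2 ∈ P := by
  obtain ⟨ψ, hψ⟩ := exists_redFam K p (AlgebraicClosure (ZMod p))
  obtain ⟨e1, e2, e3, e4, e5, e6⟩ := sym_data hC h hcp hψ
  have h5 := five_le hC
  have hbd := hC.bound
  obtain ⟨i, hi⟩ := exists_redFam_ker hψ p P hP hpP
  subst hi
  have hiZ : i ∈ ZZ ψ a b c := by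
    rw [mem_ZZ]
    exact ⟨fun h0 => ha (RingHom.mem_ker.mpr h0), fun h0 => hb (RingHom.mem_ker.mpr h0),
      fun h0 => hc (RingHom.mem_ker.mpr h0)⟩
  have := sym_five (fun i : {i // i ∈ ZZ ψ a b c} => ψ i a)
    (fun i : {i // i ∈ ZZ ψ a b c} => ψ i b) (fun i : {i // i ∈ ZZ ψ a b c} => ψ i c)
    (char_ne h5).1 (char_ne h5).2 e1 e2 e3 e4 e5 e6
    (fun i => cm_one (by omega) (by omega) h hW (ψ i) (e1 i))
    (fun i => cm_one (by omega) (by omega) h.rot hW (ψ i) (e2 i))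
    (fun i => cm_one (by omega) (by omega) h.rot.rot hW (ψ i) (e3 i))
    (by
      rw [Fintype.card_coe]
      have := card_ZZ K p a b c h hcp hψ
      omega) ⟨i, hiZ⟩
  rw [RingHom.mem_ker]
  simpa using this

/-- `3 ∤ s`: a place where `(a : b : c) = (1 : ω : ω²)` -/
theorem main_omega (hC : PalK K p)
    {a b c : 𝓞 K} (h : FSol K p a b c) (hcp : CopAt K p a b c) (s : ℕ) (hs : ¬ 3 ∣ s)
    (hsum : s + mm K p a + mm K p b + mm K p c = Module.finrank ℚ K) :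
    ∃ P : Ideal (𝓞 K), P.IsPrime ∧ (p : 𝓞 K) ∈ P ∧ (a ∉ P ∧ b ∉ P ∧ c ∉ P) ∧
      a ^ 2 + a * b + b ^ 2 ∈ P ∧ (p % 3 = 2 → Even (P.inertiaDeg ℤ)) ∧
      (p % 3 = 1 → ∃ P' : Ideal (𝓞 K), P' ≠ P ∧ P'.IsPrime ∧ (p : 𝓞 K) ∈ P' ∧
        (a ∉ P' ∧ b ∉ P' ∧ c ∉ P') ∧ a ^ 2 + a * b + b ^ 2 ∈ P') := by
  classical
  obtain ⟨ψ, hψ⟩ := exists_redFam K p (AlgebraicClosure (ZMod p))
  obtain ⟨e1, e2, e3, e4, e5, e6⟩ := sym_data hC h hcp hψ
  have h5 := five_le hC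
  have hcard : ¬ 3 ∣ Fintype.card {i // i ∈ ZZ ψ a b c} := by
    rw [Fintype.card_coe]
    have := card_ZZ K p a b c h hcp hψ
    have h1 : (ZZ ψ a b c).card = s := by omega
    rwa [h1]
  have e7 : ∀ x y : AlgebraicClosure (ZMod p), ∏ i : {i // i ∈ ZZ ψ a b c}, (x * ψ i a + y * ψ i c)
      = ∏ i : {i // i ∈ ZZ ψ a b c}, (x * ψ i a + y * ψ i b) := fun x y =>
    (forms_eq (fun i : {i // i ∈ ZZ ψ a b c} => ψ i a)
      (fun i : {i // i ∈ ZZ ψ a b c} => ψ i b) (fun i : {i // i ∈ ZZ ψ a b c} => ψ i c)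
      e4 e5 e6 x y).2.2.2
  have hfind : ∀ ω : AlgebraicClosure (ZMod p), ω ^ 2 + ω + 1 = 0 →
      ∃ i : {i // i ∈ ZZ ψ a b c}, ψ i b = ω * ψ i a := fun ω hω =>
    count_three (char_ne h5).2 (fun i : {i // i ∈ ZZ ψ a b c} => ψ i a)
      (fun i : {i // i ∈ ZZ ψ a b c} => ψ i b) (fun i : {i // i ∈ ZZ ψ a b c} => ψ i c)
      e1 e2 e3 e4 e5 e7 hcard ω hω
  have key : ∀ (ω : AlgebraicClosure (ZMod p)), ω ^ 2 + ω + 1 = 0 →
      ∀ i : {i // i ∈ ZZ ψ a b c}, ψ i b = ω * ψ i a →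
      (RingHom.ker (ψ i)).IsPrime ∧ (p : 𝓞 K) ∈ RingHom.ker (ψ i) ∧
      (a ∉ RingHom.ker (ψ i) ∧ b ∉ RingHom.ker (ψ i) ∧ c ∉ RingHom.ker (ψ i)) ∧
      a ^ 2 + a * b + b ^ 2 ∈ RingHom.ker (ψ i) := by
    intro ω hω i hi
    refine ⟨RingHom.ker_isPrime _, ?_, ⟨?_, ?_, ?_⟩, ?_⟩
    · rw [RingHom.mem_ker, map_natCast, CharP.cast_eq_zero]
    · exact fun h0 => e1 i h0
    · exact fun h0 => e2 i h0
    · exact fun h0 => e3 i h0
    · rw [RingHom.mem_ker]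
      simp only [map_add, map_mul, map_pow]
      rw [hi]
      linear_combination (ψ i a) ^ 2 * hω
  obtain ⟨ω, hω⟩ : ∃ ω : AlgebraicClosure (ZMod p), ω ^ 2 + ω + 1 = 0 := by
    obtain ⟨ω, hω⟩ := IsAlgClosed.exists_root
      (X ^ 2 + X + 1 : (AlgebraicClosure (ZMod p))[X]) (by
        have : (X ^ 2 + X + 1 : (AlgebraicClosure (ZMod p))[X]).degree = 2 := by
          compute_degree!
        rw [this]
        norm_num)
    refine ⟨ω, ?_⟩
    simpa [IsRoot.def] using hω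
  obtain ⟨i, hi⟩ := hfind ω hω
  obtain ⟨k1, k2, k3, k4⟩ := key ω hω i hi
  refine ⟨RingHom.ker (ψ i), k1, k2, k3, k4, ?_, ?_⟩
  · intro h2
    exact even_inertia _ k1 k2 h5 h2 a b k3.1 k4
  · intro h1
    have hω2 : (-1 - ω) ^ 2 + (-1 - ω) + 1 = 0 := by linear_combination hω
    obtain ⟨j, hj⟩ := hfind (-1 - ω) hω2
    obtain ⟨l1, l2, l3, l4⟩ := key (-1 - ω) hω2 j hj
    refine ⟨RingHom.ker (ψ j), ?_, l1, l2, l3, l4⟩
    intro h0
    -- `ω` lies in the prime field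
    obtain ⟨w, hw⟩ : ∃ w : ZMod p, w ^ 2 + w + 1 = 0 := by
      have h3 : 3 ∣ Fintype.card (ZMod p)ˣ := by
        rw [ZMod.card_units]
        omega
      obtain ⟨x, hx⟩ := exists_prime_orderOf_dvd_card 3 h3
      refine ⟨(x : ZMod p), ?_⟩
      have hx1 : (x : ZMod p) ^ 3 = 1 := by
        have := pow_orderOf_eq_one x
        rw [hx] at this
        rw [← Units.val_pow_eq_pow_val, this, Units.val_one]
      have hx2 : (x : ZMod p) ≠ 1 := by
        intro h7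
        have h8 : x = 1 := Units.ext h7
        rw [h8, orderOf_one] at hx
        omega
      have h9 : ((x : ZMod p) - 1) * ((x : ZMod p) ^ 2 + x + 1) = 0 := by
        linear_combination hx1
      exact (mul_eq_zero.mp h9).resolve_left (sub_ne_zero.mpr hx2)
    have hwΩ : ((w.val : ℕ) : AlgebraicClosure (ZMod p)) ^ 2 + (w.val : ℕ) + 1 = 0 := by
      have h7 : algebraMap (ZMod p) (AlgebraicClosure (ZMod p)) w
          = ((w.val : ℕ) : AlgebraicClosure (ZMod p)) := by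
        conv_lhs => rw [← ZMod.natCast_zmod_val w]
        rw [map_natCast]
      have h8 := congrArg (algebraMap (ZMod p) (AlgebraicClosure (ZMod p))) hw
      simp only [map_add, map_pow, map_one, map_zero] at h8
      rw [h7] at h8
      exact h8
    have hcases : ω = ((w.val : ℕ) : AlgebraicClosure (ZMod p)) ∨
        -1 - ω = ((w.val : ℕ) : AlgebraicClosure (ZMod p)) := by
      have h7 : (ω - (w.val : ℕ)) * (-1 - ω - (w.val : ℕ)) = 0 := by
        linear_combination hwΩ - hω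
      rcases mul_eq_zero.mp h7 with h8 | h8
      · exact Or.inl (sub_eq_zero.mp h8)
      · exact Or.inr (sub_eq_zero.mp h8)
    have hdiff : ω ≠ -1 - ω := by
      intro h7
      have h8 : (3 : AlgebraicClosure (ZMod p)) = 0 := by
        linear_combination 4 * hω - (2 * ω + 1) * h7
      exact (char_ne (p := p) h5).2 h8
    rcases hcases with hc1 | hc1
    · have h7 : b - (w.val : ℕ) * a ∈ RingHom.ker (ψ i) := by
        rw [RingHom.mem_ker, map_sub, map_mul, map_natCast, hi, hc1, sub_self]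
      rw [← h0, RingHom.mem_ker, map_sub, map_mul, map_natCast, hj, ← hc1] at h7
      have h8 : (-1 - ω - ω) * ψ j a = 0 := by linear_combination h7
      rcases mul_eq_zero.mp h8 with h9 | h9
      · exact hdiff (sub_eq_zero.mp h9).symm
      · exact e1 j h9
    · have h7 : b - (w.val : ℕ) * a ∈ RingHom.ker (ψ j) := by
        rw [RingHom.mem_ker, map_sub, map_mul, map_natCast, hj, hc1, sub_self]
      rw [h0, RingHom.mem_ker, map_sub, map_mul, map_natCast, hi, ← hc1] at h7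
      have h8 : (ω - (-1 - ω)) * ψ i a = 0 := by linear_combination h7
      rcases mul_eq_zero.mp h8 with h9 | h9
      · exact hdiff (sub_eq_zero.mp h9)
      · exact e1 i h9

/-- residue fields with two elements above `2`: the first case -/
theorem main_split (hC : PalK K p) (hW : ¬ p ^ 2 ∣ 2 ^ (p - 1) - 1)
    (h3 : ¬ 3 ∣ Module.finrank ℚ K)
    (h2 : ∀ P : Ideal (𝓞 K), P.IsPrime → ((2 : ℕ) : 𝓞 K) ∈ P → Nat.card (𝓞 K ⧸ P) = 2)
    {a b c : 𝓞 K} (h : FSol K p a b c) (hcp : CopAt K p a b c) (hc2 : CopAt K 2 a b c)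
    (hfc : ∀ P : Ideal (𝓞 K), P.IsPrime → (p : 𝓞 K) ∈ P → a ∉ P ∧ b ∉ P ∧ c ∉ P) : False := by
  have hf2 : Fact (Nat.Prime 2) := ⟨Nat.prime_two⟩
  have hq : (2 = 2 ∧ ∀ P : Ideal (𝓞 K), P.IsPrime → ((2 : ℕ) : 𝓞 K) ∈ P →
      Nat.card (𝓞 K ⧸ P) ≤ 4) ∨ (2 = 3 ∧ ∀ P : Ideal (𝓞 K), P.IsPrime → ((2 : ℕ) : 𝓞 K) ∈ P →
      Nat.card (𝓞 K ⧸ P) ≤ 3) :=
    Or.inl ⟨rfl, fun P hP h2P => by rw [h2 P hP h2P]; norm_num⟩
  have r1 := main_rel hC 2 hW hq h hcp hc2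
  have r2 := main_rel hC 2 hW hq h.rot hcp.rot hc2.rot
  rw [mm_eq_zero K p a fun P hP hpP => (hfc P hP hpP).1,
    mm_eq_zero K p b fun P hP hpP => (hfc P hP hpP).2.1] at r1
  rw [mm_eq_zero K p c fun P hP hpP => (hfc P hP hpP).2.2,
    mm_eq_zero K p b fun P hP hpP => (hfc P hP hpP).2.1] at r2
  have r3 := mm_add_eq K 2 a b c fun P hP h2P =>
    ⟨cop_two h P hP (hc2 P hP h2P), res_two h P hP (h2 P hP h2P)⟩
  apply h3
  refine ⟨mm K 2 a, ?_⟩
  omega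

end

end Pool.Agent.H73.FD
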