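import Pool.Agent.H73.FD.KFin4
import Pool.Agent.H73.QX.Mix5

/-!
# FD Quad: quadratic fields, strong form

If `PalK K p` and some prime above `p` divides none of `a, b, c`, then `(d / p) = (-3 / p)`.
-/

set_option autoImplicit false

open NumberField IsDedekindDomain

namespace Pool.Agent.H73.FD

open H45KC H9FC

section quad
variable {K : Type*} [Field K] [NumberField K] {p : ℕ} [Fact p.Prime]

theorem absNorm_span (hK : Module.finrank ℚ K = 2) :
    Ideal.absNorm (Ideal.span {(p : 𝓞 K)}) = p ^ 2 := by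
  rw [Ideal.absNorm_span_singleton]
  have h4 : Algebra.norm ℤ ((p : ℕ) : 𝓞 K) = (p : ℤ) ^ Module.finrank ℤ (𝓞 K) := by
    have h5 : ((p : ℕ) : 𝓞 K) = algebraMap ℤ (𝓞 K) (p : ℤ) := by simp
    rw [h5, Algebra.norm_algebraMap]
  rw [h4, RingOfIntegers.rank, hK, Int.natAbs_pow, Int.natAbs_natCast]

/-- a divisor of `(p)` of norm `p²` is `(p)` -/
theorem eq_span_of (hK : Module.finrank ℚ K = 2) (I : Ideal (𝓞 K))
    (hI : I ∣ Ideal.span {(p : 𝓞 K)}) (hn : p ^ 2 ∣ Ideal.absNorm I) :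
    I = Ideal.span {(p : 𝓞 K)} := by
  obtain ⟨J, hJ⟩ := hI
  have hp : p.Prime := Fact.out
  obtain ⟨k, hk⟩ := hn
  have h1 := congrArg Ideal.absNorm hJ
  rw [absNorm_span hK, map_mul, hk] at h1
  have h3 : k * Ideal.absNorm J = 1 := by
    have h4 : p ^ 2 * (k * Ideal.absNorm J) = p ^ 2 * 1 := by rw [mul_one, ← mul_assoc]; exact h1.symm
    exact Nat.eq_of_mul_eq_mul_left (pow_pos hp.pos 2) h4
  have h2 : Ideal.absNorm J = 1 := Nat.eq_one_of_mul_eq_one_left h3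
  rw [Ideal.absNorm_eq_one_iff] at h2
  rw [hJ, h2, Ideal.mul_top]

/-- `(-3 / p)` -/
theorem leg_neg_three_one (hp5 : 5 ≤ p) (h : p % 3 = 1) : legendreSym p (-3) = 1 := by
  have hp : p.Prime := Fact.out
  have h3 : 3 ∣ Fintype.card (ZMod p)ˣ := by
    rw [ZMod.card_units]
    omega
  obtain ⟨x, hx⟩ := exists_prime_orderOf_dvd_card 3 h3
  have hx1 : (x : ZMod p) ^ 3 = 1 := by
    have := pow_orderOf_eq_one x
    rw [hx] at this
    rw [← Units.val_pow_eq_pow_val, this, Units.val_one]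
  have hx2 : (x : ZMod p) ≠ 1 := by
    intro h7
    have h8 : x = 1 := Units.ext h7
    rw [h8, orderOf_one] at hx
    omega
  have h9 : ((x : ZMod p) - 1) * ((x : ZMod p) ^ 2 + x + 1) = 0 := by
    linear_combination hx1
  have hw := (mul_eq_zero.mp h9).resolve_left (sub_ne_zero.mpr hx2)
  have hne : ((-3 : ℤ) : ZMod p) ≠ 0 := by
    intro h0
    have h1 := (ZMod.intCast_zmod_eq_zero_iff_dvd (-3) p).1 h0
    have h2 : (p : ℤ) ∣ 3 := by simpa using h1
    have h4 : p ∣ 3 := by exact_mod_cast h2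
    have := Nat.le_of_dvd (by norm_num) h4
    omega
  rw [legendreSym.eq_one_iff p hne]
  refine ⟨2 * (x : ZMod p) + 1, ?_⟩
  push_cast
  linear_combination (-4 : ZMod p) * hw

theorem leg_neg_three_neg (hp5 : 5 ≤ p) (h : p % 3 = 2) : legendreSym p (-3) = -1 := by
  have hp : p.Prime := Fact.out
  rw [legendreSym.eq_neg_one_iff]
  rintro ⟨r, hr⟩
  have h2 : (2 : ZMod p) ≠ 0 := by
    intro h0
    have h1 : ((2 : ℕ) : ZMod p) = 0 := by exact_mod_cast h0
    rw [ZMod.natCast_eq_zero_iff] at h1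
    have := Nat.le_of_dvd (by norm_num) h1
    omega
  have h3 : (3 : ZMod p) ≠ 0 := by
    intro h0
    have h1 : ((3 : ℕ) : ZMod p) = 0 := by exact_mod_cast h0
    rw [ZMod.natCast_eq_zero_iff] at h1
    have := Nat.le_of_dvd (by norm_num) h1
    omega
  push_cast at hr
  set t : ZMod p := (-1 + r) / 2 with ht
  have ht1 : t ^ 2 + t + 1 = 0 := by
    rw [ht]
    field_simp
    linear_combination -hr
  have ht3 : t ^ 3 = 1 := by linear_combination (t - 1) * ht1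
  have ht1' : t ≠ 1 := by
    intro h0
    rw [h0] at ht1
    apply h3
    linear_combination ht1
  have ht0 : t ≠ 0 := by
    intro h0
    rw [h0] at ht1
    simp at ht1
  have hord : orderOf t = 3 := orderOf_eq_prime ht3 ht1'
  have hdvd : 3 ∣ p - 1 := by
    rw [← hord]
    exact orderOf_dvd_of_pow_eq_one (ZMod.pow_card_sub_one_eq_one ht0)
  omega

/-- two primes above `p`: `(d / p) = 1` -/
theorem leg_split (hK : Module.finrank ℚ K = 2) (hp2 : p ≠ 2) (d : ℤ) (hd : Squarefree d)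
    (hd1 : d ≠ 1) (δ : K) (hδ : δ ^ 2 = (d : K)) (v v' : HeightOneSpectrum (𝓞 K)) (hne : v' ≠ v)
    (hv : (p : 𝓞 K) ∈ v.asIdeal) (hv' : (p : 𝓞 K) ∈ v'.asIdeal) : legendreSym p d = 1 := by
  have hp : p.Prime := Fact.out
  have hcop : IsCoprime v.asIdeal v'.asIdeal := by
    rw [Ideal.isCoprime_iff_sup_eq]
    exact v.isMaximal.coprime_of_ne v'.isMaximal (fun h => hne (HeightOneSpectrum.ext h.symm))
  have hprod : v.asIdeal * v'.asIdeal ∣ Ideal.span {(p : 𝓞 K)} :=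
    hcop.mul_dvd (by rw [Ideal.dvd_span_singleton]; exact hv)
      (by rw [Ideal.dvd_span_singleton]; exact hv')
  have n1 := Pool.Agent.H73.QX.dvd_absNorm K p hp v hv
  have n2 := Pool.Agent.H73.QX.dvd_absNorm K p hp v' hv'
  have hspan := eq_span_of hK _ hprod (by
    rw [map_mul, pow_two]
    exact mul_dvd_mul n1 n2)
  have hcard : Ideal.absNorm v.asIdeal = p := by
    have h1 := congrArg Ideal.absNorm hspan
    rw [absNorm_span hK, map_mul] at h1
    obtain ⟨k, hk⟩ := n1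
    obtain ⟨l, hl⟩ := n2
    rw [hk, hl] at h1
    have h2 : k * l = 1 := by
      have h3 : p ^ 2 * (k * l) = p ^ 2 * 1 := by
        calc p ^ 2 * (k * l) = p * k * (p * l) := by ring
          _ = p ^ 2 * 1 := by rw [h1, mul_one]
      exact Nat.eq_of_mul_eq_mul_left (pow_pos hp.pos 2) h3
    rw [hk, Nat.eq_one_of_mul_eq_one_right h2, mul_one]
  have hint : IsIntegral ℤ δ := by
    refine IsIntegral.of_pow (n := 2) (by norm_num) ?_
    rw [hδ]
    exact isIntegral_algebraMap (R := ℤ) (x := d)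
  obtain ⟨D, hD⟩ : ∃ D : 𝓞 K, algebraMap (𝓞 K) K D = δ := ⟨⟨δ, hint⟩, rfl⟩
  have hD2 : D ^ 2 = (d : 𝓞 K) := by
    apply FaithfulSMul.algebraMap_injective (𝓞 K) K
    rw [map_pow, hD, hδ, map_intCast]
  -- the residue field
  have hm : ∃ m : ℕ, D - (m : 𝓞 K) ∈ v.asIdeal := by
    have hpv : v.asIdeal.IsPrime := v.isPrime
    have hc : CharP (𝓞 K ⧸ v.asIdeal) p := by
      have h1 : ((p : ℕ) : 𝓞 K ⧸ v.asIdeal) = 0 := by
        have h2 := Ideal.Quotient.eq_zero_iff_mem.mpr hv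
        simpa using h2
      exact (CharP.charP_iff_prime_eq_zero hp).mpr h1
    have hfin : Finite (𝓞 K ⧸ v.asIdeal) := Ideal.finiteQuotientOfFreeOfNeBot _ v.ne_bot
    let _ : Fintype (𝓞 K ⧸ v.asIdeal) := Fintype.ofFinite _
    have hbij : Function.Bijective (ZMod.castHom (dvd_refl p) (𝓞 K ⧸ v.asIdeal)) := by
      rw [Fintype.bijective_iff_injective_and_card]
      refine ⟨ZMod.castHom_injective _, ?_⟩
      rw [ZMod.card, ← Nat.card_eq_fintype_card]
      exact hcard.symm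
    obtain ⟨z, hz⟩ := hbij.2 (Ideal.Quotient.mk _ D)
    refine ⟨z.val, ?_⟩
    rw [← Ideal.Quotient.eq_zero_iff_mem, map_sub, map_natCast, ← hz, sub_eq_zero]
    conv_lhs => rw [← ZMod.natCast_zmod_val z]
    rw [map_natCast]
  obtain ⟨m, hm⟩ := hm
  have hdm : (p : ℤ) ∣ d - (m : ℤ) ^ 2 := by
    have h1 : ((d - (m : ℤ) ^ 2 : ℤ) : 𝓞 K) ∈ v.asIdeal := by
      have h2 : ((d - (m : ℤ) ^ 2 : ℤ) : 𝓞 K) = (D - m) * (D + m) := by
        push_cast
        rw [← hD2]; ring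
      rw [h2]
      exact Ideal.mul_mem_right _ _ hm
    have hc : CharP (𝓞 K ⧸ v.asIdeal) p := by
      have h1 : ((p : ℕ) : 𝓞 K ⧸ v.asIdeal) = 0 := by
        have h2 := Ideal.Quotient.eq_zero_iff_mem.mpr hv
        simpa using h2
      have hpv : v.asIdeal.IsPrime := v.isPrime
      exact (CharP.charP_iff_prime_eq_zero hp).mpr h1
    rw [← Ideal.Quotient.eq_zero_iff_mem, map_intCast, CharP.intCast_eq_zero_iff _ p] at h1
    exact h1
  have hnd : ((d : ℤ) : ZMod p) ≠ 0 := by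
    intro h0
    have hpd := (ZMod.intCast_zmod_eq_zero_iff_dvd d p).1 h0
    -- `δ` lies in both primes
    have hmem : ∀ w : HeightOneSpectrum (𝓞 K), (p : 𝓞 K) ∈ w.asIdeal → D ∈ w.asIdeal := by
      intro w hw
      apply w.isPrime.mem_of_pow_mem 2
      rw [hD2]
      obtain ⟨k, hk⟩ := hpd
      rw [hk]
      push_cast
      exact Ideal.mul_mem_right _ _ hw
    have h1 : D ∈ Ideal.span {(p : 𝓞 K)} := by
      rw [← hspan, ← Ideal.inf_eq_mul_of_isCoprime hcop]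
      exact ⟨hmem v hv, hmem v' hv'⟩
    rw [Ideal.mem_span_singleton] at h1
    obtain ⟨y, hy⟩ := h1
    refine Pool.Agent.H73.QX.not_int_div hK d hd hd1 δ hδ p hp hp2 0 (by simpa using hpd) (y : K) 1
      (Or.inl rfl) ?_ y.isIntegral_coe
    rw [← hD, hy]
    push_cast
    ring
  rw [legendreSym.eq_one_iff p hnd]
  refine ⟨(m : ZMod p), ?_⟩
  have h1 := (ZMod.intCast_zmod_eq_zero_iff_dvd _ p).2 hdm
  push_cast at h1
  linear_combination h1

/-- a prime of degree two above `p`: `(d / p) = -1` -/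
theorem leg_inert (hK : Module.finrank ℚ K = 2) (hp2 : p ≠ 2) (d : ℤ) (hd : Squarefree d)
    (hd1 : d ≠ 1) (δ : K) (hδ : δ ^ 2 = (d : K)) (v : HeightOneSpectrum (𝓞 K))
    (hv : (p : 𝓞 K) ∈ v.asIdeal) (hf : Even (v.asIdeal.inertiaDeg ℤ)) : legendreSym p d = -1 := by
  have hp : p.Prime := Fact.out
  have hpv : v.asIdeal.IsPrime := v.isPrime
  have hlies : v.asIdeal.LiesOver (Ideal.span {(p : ℤ)}) := by
    rw [Ideal.liesOver_iff]
    refine Ideal.IsMaximal.eq_of_le (Int.ideal_span_isMaximal_of_prime p) ?_ ?_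
    · intro h0
      have h1 : (1 : ℤ) ∈ v.asIdeal.under ℤ := by rw [h0]; trivial
      rw [Ideal.under, Ideal.mem_comap, map_one] at h1
      exact hpv.ne_top ((Ideal.eq_top_iff_one _).mpr h1)
    · rw [Ideal.span_singleton_le_iff_mem, Ideal.under, Ideal.mem_comap]
      simpa using hv
  have hf0 : 0 < v.asIdeal.inertiaDeg ℤ := Ideal.inertiaDeg_pos _ _
  have hf2 : 2 ≤ v.asIdeal.inertiaDeg ℤ := by
    obtain ⟨k, hk⟩ := hf
    omega
  have hspan := eq_span_of (p := p) hK v.asIdeal (by rw [Ideal.dvd_span_singleton]; exact hv) (by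
    rw [← Ideal.pow_inertiaDeg p v.asIdeal]
    exact pow_dvd_pow p hf2)
  rw [legendreSym.eq_neg_one_iff]
  rintro ⟨r, hr⟩
  have hint : IsIntegral ℤ δ := by
    refine IsIntegral.of_pow (n := 2) (by norm_num) ?_
    rw [hδ]
    exact isIntegral_algebraMap (R := ℤ) (x := d)
  obtain ⟨D, hD⟩ : ∃ D : 𝓞 K, algebraMap (𝓞 K) K D = δ := ⟨⟨δ, hint⟩, rfl⟩
  have hD2 : D ^ 2 = (d : 𝓞 K) := by
    apply FaithfulSMul.algebraMap_injective (𝓞 K) K
    rw [map_pow, hD, hδ, map_intCast]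
  have hdr : (p : ℤ) ∣ d - (r.val : ℤ) ^ 2 := by
    rw [← ZMod.intCast_zmod_eq_zero_iff_dvd]
    push_cast
    rw [ZMod.natCast_zmod_val, hr]
    ring
  have hmem : (D - (r.val : 𝓞 K)) * (D + (r.val : 𝓞 K)) ∈ v.asIdeal := by
    have h2 : (D - (r.val : 𝓞 K)) * (D + (r.val : 𝓞 K)) = ((d - (r.val : ℤ) ^ 2 : ℤ) : 𝓞 K) := by
      push_cast
      rw [← hD2]; ring
    rw [h2]
    obtain ⟨k, hk⟩ := hdr
    rw [hk]
    push_cast
    exact Ideal.mul_mem_right _ _ hv
  have key : ∀ s : K, (s = 1 ∨ s = -1) → ∀ y : 𝓞 K, (p : K) * (y : K) = s * δ - (r.val : ℤ) →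
      False := fun s hs y hy =>
    Pool.Agent.H73.QX.not_int_div hK d hd hd1 δ hδ p hp hp2 (r.val : ℤ) hdr (y : K) s hs hy
      y.isIntegral_coe
  rcases hpv.mem_or_mem hmem with h1 | h1 <;>
    rw [hspan, Ideal.mem_span_singleton] at h1 <;> obtain ⟨y, hy⟩ := h1 <;>
    have hy' := congrArg (algebraMap (𝓞 K) K) hy
  · refine key 1 (Or.inl rfl) y ?_
    rw [map_sub, map_mul, map_natCast, map_natCast] at hy'
    rw [← hD]
    push_cast
    linear_combination -hy'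
  · refine key (-1) (Or.inr rfl) (-y) ?_
    rw [map_add, map_mul, map_natCast, map_natCast] at hy'
    rw [← hD]
    push_cast
    linear_combination hy'

/-- If some prime above `p` divides none of `a, b, c`, then `(d / p) = (-3 / p)`. -/
theorem quad_leg (hC : PalK K p) (hK : Module.finrank ℚ K = 2) (d : ℤ) (hd : Squarefree d)
    (hd1 : d ≠ 1) (δ : K) (hδ : δ ^ 2 = (d : K)) (a b c : K) (ha : a ≠ 0) (hb : b ≠ 0) (hc : c ≠ 0)
    (h : a ^ p + b ^ p + c ^ p = 0) (v : HeightOneSpectrum (𝓞 K)) (hv : (p : 𝓞 K) ∈ v.asIdeal)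
    (e1 : v.valuation K a = v.valuation K b) (e2 : v.valuation K b = v.valuation K c) :
    legendreSym p d = legendreSym p (-3) := by
  have hp : p.Prime := Fact.out
  have hp5 := five_le hC
  obtain ⟨l, a', b', c', hl, ea, eb, ec, hF, hcp, -⟩ := exists_norm K p p a b c ha hb hc h
  obtain ⟨n1, n2, n3⟩ := ideal_of_val_eq ha hb hc h hl ea eb ec hcp v hv e1 e2
  obtain ⟨ψ, hψ⟩ := exists_redFam K p (AlgebraicClosure (ZMod p))
  obtain ⟨i, hi⟩ := exists_redFam_ker hψ p v.asIdeal v.isPrime hv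
  have hiZ : i ∈ ZZ ψ a' b' c' := by
    rw [mem_ZZ]
    rw [← hi] at n1 n2 n3
    exact ⟨fun h0 => n1 (RingHom.mem_ker.mpr h0), fun h0 => n2 (RingHom.mem_ker.mpr h0),
      fun h0 => n3 (RingHom.mem_ker.mpr h0)⟩
  have hcard := card_ZZ K p a' b' c' hF hcp hψ
  have hpos : 0 < (ZZ ψ a' b' c').card := Finset.card_pos.2 ⟨i, hiZ⟩
  have hle : (ZZ ψ a' b' c').card ≤ 2 := by omega
  have hne : ∀ P : Ideal (𝓞 K), (p : 𝓞 K) ∈ P → P ≠ ⊥ := by
    rintro P hP rfl
    rw [Ideal.mem_bot, Nat.cast_eq_zero] at hP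
    omega
  obtain ⟨P, hP, hpP, -, -, he, hex⟩ := main_omega hC hF hcp (ZZ ψ a' b' c').card
    (by intro h3; have := Nat.le_of_dvd hpos h3; omega) hcard
  have h3 : p % 3 ≠ 0 := by
    intro h0
    have h1 := (Nat.prime_dvd_prime_iff_eq Nat.prime_three hp).1 (Nat.dvd_of_mod_eq_zero h0)
    omega
  rcases (by omega : p % 3 = 1 ∨ p % 3 = 2) with h1 | h2
  · obtain ⟨P', hPP, hP', hpP', -⟩ := hex h1
    rw [leg_neg_three_one hp5 h1]
    exact leg_split hK (by omega) d hd hd1 δ hδ ⟨P, hP, hne P hpP⟩ ⟨P', hP', hne P' hpP'⟩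
      (fun h0 => hPP (congrArg HeightOneSpectrum.asIdeal h0)) hpP hpP'
  · rw [leg_neg_three_neg hp5 h2]
    exact leg_inert hK (by omega) d hd hd1 δ hδ ⟨P, hP, hne P hpP⟩ hpP (he h2)

/-- the strong form of the first case for quadratic fields -/
theorem quad_strong (hC : PalK K p) (hK : Module.finrank ℚ K = 2) (d : ℤ) (hd : Squarefree d)
    (hd1 : d ≠ 1) (δ : K) (hδ : δ ^ 2 = (d : K)) (hj : jacobiSym (-3 * d) p ≠ 1) :
    Pool.Agent.H73.QX.FirstCase K p := by
  intro a b c ha hb hc h v hv hN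
  have hp5 := five_le hC
  have hps : ¬ (p : ℤ) ∣ -3 := by
    intro h
    have h1 : (p : ℤ) ∣ 3 := by simpa using h
    have h2 : p ∣ 3 := by exact_mod_cast h1
    have := Nat.le_of_dvd (by norm_num) h2
    omega
  exact Pool.Agent.H73.QX.legendre_ne p (-3) d hps hj
    (quad_leg hC hK d hd hd1 δ hδ a b c ha hb hc h v hv hN.1 hN.2)

end quad

end Pool.Agent.H73.FD
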